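import Pool.Agent.K9h91.PA.TowerG
import Pool.Agent.K9h91.PA.Alg

/-!
# Groups of polynomial automorphisms and the fibered Farrell-Jones conjecture in A-theory

`ClosedE C` (of the starting files) says that the class `C` of groups has the closure properties which
are known for the groups which satisfy the Farrell-Jones conjecture in A-theory with coefficients and
finite wreath products. Let `F` be a field such that all groups `GL_n(F)` are in `C` (for the
conjecture this is known for `F = ℚ`), and let `K` be an algebraic extension of `F` of characteristic
zero. The theorem says:

Let `R` be a finitely generated commutative `K`-algebra without zero divisors, and let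
`ι : K[x, y] → R` be an injective homomorphism. Let `Γ` be a group of automorphisms of `R` which
preserve the image of `ι`. Suppose that the subgroup which fixes the image of `ι` acts locally finitely
on `R` (`LocFin`: the orbits of the elements of `R` under the finitely generated subgroups span
subspaces of finite dimension), and that each finitely generated subgroup of `Γ` acts locally finitely
or has a finite orbit on the set of the proper ideals of `R` which are of finite codimension or, if
`ι` is surjective, different from `0` (`Good`). Then `Γ` is in `C`.

The second part is the case of the polynomial rings `R = K[X_0, ..., X_{n+1}]` and the groups which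
preserve the subalgebras `K[X_j, ..., X_{n+1}]` for `j ≤ n` (`Flag`); here the condition on the
subgroup which fixes `K[X_n, X_{n+1}]` is not needed. For `n = 0` these are groups of automorphisms of
the plane; for example each group which preserves a closed subset of the plane different from the
empty set and the plane is in `C`.
-/

set_option autoImplicit false

namespace Pool.Agent.Results.MP_59dd5b_al.PlaneAutomorphisms

open MvPolynomial Matrix Pool.Agent.K9h91.PA Pool.Agent.Y110.FJ

theorem result : ∀ C : ∀ (G : Type) [Group G], Prop, ClosedE C →
    ∀ (F K : Type) [Field F] [Field K] [CharZero K] [Algebra F K] [Algebra.IsAlgebraic F K],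
    (∀ n : ℕ, C (GL (Fin n) F)) →
    (∀ (R : Type) [CommRing R] [IsDomain R] [Algebra K R] [Algebra.FiniteType K R]
      (ι : MvPolynomial (Fin 2) K →ₐ[K] R), Function.Injective ι →
      ∀ (Γ : Type) [Group Γ] (ρ : Γ →* (R ≃ₐ[K] R)), Function.Injective ρ →
      (∀ γ a, ∃ b, ρ γ (ι a) = ι b) → LocFin ρ (fixer ι ρ) → Good ι ρ → C Γ) ∧
    (∀ (n : ℕ) (Γ : Type) [Group Γ]
      (ρ : Γ →* (MvPolynomial (Fin (n + 2)) K ≃ₐ[K] MvPolynomial (Fin (n + 2)) K)),
      Function.Injective ρ → Flag n ρ → Good (rename (Fin.natAdd n)) ρ → C Γ) := by
  intro C hC F K _ _ _ _ _ hF
  have hGL : ∀ n : ℕ, C (GL (Fin n) K) := fun n => mem_algebraic hC.base hF n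
  refine ⟨?_, ?_⟩
  · intro R _ _ _ _ ι hι Γ _ ρ hρ hinv hN h
    exact over_plane hC hGL ι hι ρ hρ hinv hN h
  · intro n Γ _ ρ hρ hf h
    exact tower_good hC hGL n ρ hρ hf h

end Pool.Agent.Results.MP_59dd5b_al.PlaneAutomorphisms
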