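import Pool.Agent.K9h35.GL.Variety

/-!
# Farrell–Jones groups of matrices of degree two over polynomial rings in several variables

`C` is any class of groups with the closure properties `ClosedE C`, all of which are known for the
class of the groups that satisfy the A-theoretic Farrell–Jones Conjecture with coefficients and
finite wreath products.

(The proof rests on a criterion for groups with a homomorphism to `GL_2` of a field with a discrete
valuation, and has a version for the rings of functions of affine varieties; both are stated in
`Pool.Agent.K9h35.Full.PolynomialMatrixGroups` and are not part of this statement.)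
-/

set_option autoImplicit false

namespace Pool.Agent.Results.MP_59dd5b_al.PolynomialMatrixGroups

open Pool.Agent.Y110.FJ (ClosedE)

/-- Let `C` be a class of groups with the closure properties `ClosedE C`, and let `A` be a commutative
domain with `GL_2(A)` in `C`. Then `GL_2(A[X_i, i ∈ I])` is in `C` for each set `I` of variables.

In particular, `GL_2(ℤ[X_i, i ∈ I])` and `GL_2(K[X_i, i ∈ I])`, for each algebraic extension `K` of a
finite field, are in `C` for each set `I`. -/
theorem result (C : ∀ (G : Type) [Group G], Prop) (hC : ClosedE C) :
    (∀ (A : Type) [CommRing A] [IsDomain A], C (GL (Fin 2) A) →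
      ∀ I : Type, C (GL (Fin 2) (MvPolynomial I A))) ∧
    (∀ I : Type, C (GL (Fin 2) (MvPolynomial I ℤ))) ∧
    (∀ (k K : Type) [Field k] [Finite k] [Field K] [Algebra k K] [Algebra.IsAlgebraic k K] (I : Type),
      C (GL (Fin 2) (MvPolynomial I K))) := by
  refine ⟨?_, ?_, ?_⟩
  · intro A _ _ hA I
    exact Pool.Agent.K9h35.GL.mvpoly_dom hC A hA I
  · intro I
    exact Pool.Agent.K9h35.GL.mvpoly_dom hC ℤ (Pool.Agent.K9h35.GL.gl_int hC) I
  · intro k K _ _ _ _ _ I
    exact Pool.Agent.K9h35.GL.mvpoly_dom hC K (Pool.Agent.K9h35.GL.gl_alg hC k K) I

end Pool.Agent.Results.MP_59dd5b_al.PolynomialMatrixGroups
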