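import Pool.Agent.K9h35.SQ.Ring2

/-!
# Groups acting with finite stabilizers on simply connected complexes of dimension two

`C` is any class of groups with the closure properties `Closed C`, all of which are known for the class
of the groups that satisfy the A-theoretic Farrell–Jones Conjecture with coefficients and finite
wreath products. This class contains the groups acting properly and cocompactly on simply connected
square complexes of nonpositive curvature (these are CAT(0) groups; Enkelmann, Lück, Pieper, Ullmann,
Winges).

The actions considered here are not cocompact, and the complexes are not locally finite.

(Applications to discrete groups acting on products of two trees and to matrices of degree two over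
rings `A[1/f]` are stated in `Pool.Agent.K9h35.Full.TwoDimensionalActions`; they are not part of this
statement.)
-/

set_option autoImplicit false

namespace Pool.Agent.Results.MP_59dd5b_al.TwoDimensionalActions

open Pool.Agent.Y462.SS (Closed)
open Pool.Agent.K9h35.SQ (Cx IsImmersion SimplyConnected Acts Geometric IsNPCSquare)

/-- Let `C` be a class of groups with the closure properties `Closed C` (only the closure under
directed colimits is used). Let `P` be a class of complexes of dimension two which contains with `X` all
complexes `Y` with an immersion (a locally injective combinatorial map) `Y → X`. If `C` contains the
groups acting properly and cocompactly on simply connected complexes in `P`, then it contains all groups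
acting with finite stabilizers on simply connected complexes in `P`.

In particular: if `C` contains the groups acting properly and cocompactly on simply connected square
complexes of nonpositive curvature, then it contains all groups acting with finite stabilizers on such
complexes. -/
theorem result (C : ∀ (G : Type) [Group G], Prop) (hC : Closed C) :
    (∀ P : ∀ V : Type, Cx V → Prop,
      (∀ (V W : Type) (Y : Cx W) (X : Cx V) (φ : W → V), IsImmersion Y X φ → P V X → P W Y) →
      (∀ (V : Type) (X : Cx V) (G : Type) [Group G] [MulAction G V], P V X →
        SimplyConnected X → Acts G X → Geometric G X → C G) →
      ∀ (V : Type) (X : Cx V) (Γ : Type) [Group Γ] [MulAction Γ V], P V X →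
        SimplyConnected X → Acts Γ X → (∀ v : V, {g : Γ | g • v = v}.Finite) → C Γ) ∧
    ((∀ (V : Type) (X : Cx V) (G : Type) [Group G] [MulAction G V], IsNPCSquare X →
        SimplyConnected X → Acts G X → Geometric G X → C G) →
      ∀ (V : Type) (X : Cx V) (Γ : Type) [Group Γ] [MulAction Γ V], IsNPCSquare X →
        SimplyConnected X → Acts Γ X → (∀ v : V, {g : Γ | g • v = v}.Finite) → C Γ) := by
  refine ⟨?_, fun hcat => ?_⟩
  · intro P hP hgeo V X Γ _ _ hX hsc hact hst
    exact Pool.Agent.K9h35.SQ.colim_main hC P hP hgeo X hX hsc hact hst
  · intro V X Γ _ _ hX hsc hact hst
    exact Pool.Agent.K9h35.SQ.square_main hC hcat X Γ hX hsc hact hst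

end Pool.Agent.Results.MP_59dd5b_al.TwoDimensionalActions
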