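import Pool.Agent.K9h35.TB.Poly
import Pool.Agent.K9h35.TB.Gars

/-!
# Groups acting on lattices with a shift of height three, and matrices of degree three

`C` is any class of groups with the closure properties `Closed C` which contains the groups acting
properly and cocompactly on simply connected triangle complexes of nonpositive curvature (these are
CAT(0) groups); all this is known for the class of the groups that satisfy the A-theoretic
Farrell–Jones Conjecture with coefficients and finite wreath products (Enkelmann, Lück, Pieper,
Ullmann, Winges).

A shift is an automorphism `σ` of an ordered set `A` with suprema such that `x < σ x` for all `x`, any two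
elements are comparable up to powers of `σ`, and the chains from `x` to `σ x` have at most three steps.
The typical example is the set of the lattices in a space of dimension three over a field (or a division
ring) with a discrete valuation; the triangle complex which belongs to `A` is then the Bruhat–Tits
building. The complex is simply connected, and it has nonpositive curvature. It is not locally finite in
general, and the groups which are considered here do not act cocompactly.

The second part is this case; for example, `Γ` can be `GL_3(R)`, where `R` is a subring of `D` in which all
nonzero elements have value at least one, and only finitely many elements have bounded value: `R` may be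
the ring of polynomials over a finite field in several variables, or a noncommutative ring with a degree
function. (Such examples are worked out in `Pool.Agent.K9h35.Full.TwoDimensionalBuildings`, and they are
not part of this statement.)
-/

set_option autoImplicit false

namespace Pool.Agent.Results.MP_59dd5b_al.TwoDimensionalBuildings

open WithZero
open Pool.Agent.Y462.SS (Closed)
open Pool.Agent.K9h35.TB (IsShift HasCAT0Triangle)

/-- Let `C` be a class of groups with the closure properties `Closed C` which contains the groups acting
properly and cocompactly on simply connected triangle complexes of nonpositive curvature. Let `σ` be a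
shift of an ordered set `A` with suprema. Then `C` contains all groups `Γ` of automorphisms of `A` which
commute with `σ`, such that for each `x` in `A` only finitely many elements of `Γ` map `x` to one of the
`σ ^ k x`.

In particular, if `v` is a discrete valuation of a division ring `D`, then `C` contains all groups `Γ`
with a homomorphism to `GL_3(D)` such that each `ρ γ` has an entry of value at least one, and for each `c`
there are only finitely many `γ` such that all entries of `ρ γ` have values at most `exp c`. -/
theorem result (C : ∀ (G : Type) [Group G], Prop) (hC : Closed C) (htri : HasCAT0Triangle C) :
    (∀ (A : Type) [SemilatticeSup A] [Nonempty A] (σ : A ≃o A), IsShift σ →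
      ∀ (Γ : Type) [Group Γ] [MulAction Γ A], (∀ (g : Γ) (x y : A), x ≤ y → g • x ≤ g • y) →
        (∀ (g : Γ) (x : A), g • σ x = σ (g • x)) →
        (∀ x : A, {g : Γ | ∃ k : ℤ, g • x = (σ ^ k) x}.Finite) → C Γ) ∧
    (∀ (D : Type) [DivisionRing D] (v : Valuation D ℤᵐ⁰) (π : D), v π = exp (-1) →
      ∀ (Γ : Type) [Group Γ] (ρ : Γ →* (Matrix (Fin 3) (Fin 3) D)ˣ),
        (∀ γ : Γ, ∃ i j, 1 ≤ v ((ρ γ : Matrix (Fin 3) (Fin 3) D) i j)) →
        (∀ c : ℤ, {γ : Γ | ∀ i j, v ((ρ γ : Matrix (Fin 3) (Fin 3) D) i j) ≤ exp c}.Finite) →
        C Γ) := by
  refine ⟨?_, ?_⟩
  · intro A _ _ σ hσ Γ _ _ hmono hcomm hst
    exact Pool.Agent.K9h35.TB.shift_main hC htri hσ hmono hcomm hst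
  · intro D _ v π hπ Γ _ ρ h1 hfin
    exact Pool.Agent.K9h35.TB.mat_main hC htri v π hπ Γ ρ h1 hfin

end Pool.Agent.Results.MP_59dd5b_al.TwoDimensionalBuildings
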